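import Mathlib

namespace Pool.Agent.Results.MP_590da2_gt.NonAbelian

section Defs

variable {g : Type} [LieRing g] [LieAlgebra ℝ g]

/-- A complex structure: `J² = -1` and vanishing Nijenhuis tensor. -/
def IsCx (J : Module.End ℝ g) : Prop :=
  J * J = -1 ∧ ∀ X Y : g, ⁅X, Y⁆ + J (⁅J X, Y⁆ + ⁅X, J Y⁆) - ⁅J X, J Y⁆ = 0

/-- A hypercomplex structure. -/
def IsHyper (J₁ J₂ J₃ : Module.End ℝ g) : Prop :=
  IsCx J₁ ∧ IsCx J₂ ∧ IsCx J₃ ∧ J₁ * J₂ = J₃ ∧ J₂ * J₁ = -J₃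

/-- The Obata connection `Y ↦ ½([X,Y] + J₁[J₁X,Y] - J₂[X,J₂Y] + J₃[J₁X,J₂Y])`. -/
noncomputable def obata (J₁ J₂ J₃ : Module.End ℝ g) (X : g) : Module.End ℝ g :=
  (1 / 2 : ℝ) • (LieAlgebra.ad ℝ g X + J₁ * LieAlgebra.ad ℝ g (J₁ X)
    - J₂ * LieAlgebra.ad ℝ g X * J₂ + J₃ * LieAlgebra.ad ℝ g (J₁ X) * J₂)

/-- Curvature `R(X,Y) = [∇_X, ∇_Y] - ∇_{[X,Y]}`. -/
noncomputable def curv (J₁ J₂ J₃ : Module.End ℝ g) (X Y : g) : Module.End ℝ g :=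
  obata J₁ J₂ J₃ X * obata J₁ J₂ J₃ Y - obata J₁ J₂ J₃ Y * obata J₁ J₂ J₃ X
    - obata J₁ J₂ J₃ ⁅X, Y⁆

/-- The holonomy algebra of a left-invariant connection: the least subspace containing all
curvature endomorphisms and stable under commutators with all `∇_Z`. -/
noncomputable def hol (J₁ J₂ J₃ : Module.End ℝ g) : Submodule ℝ (Module.End ℝ g) :=
  sInf {S | (∀ X Y, curv J₁ J₂ J₃ X Y ∈ S) ∧
    ∀ Z, ∀ A ∈ S, obata J₁ J₂ J₃ Z * A - A * obata J₁ J₂ J₃ Z ∈ S}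

end Defs

def G : Type := Fin 5 → Fin 4 → ℝ

noncomputable instance : AddCommGroup G := inferInstanceAs (AddCommGroup (Fin 5 → Fin 4 → ℝ))
noncomputable instance : Module ℝ G := inferInstanceAs (Module ℝ (Fin 5 → Fin 4 → ℝ))

def b (u v : Fin 4 → ℝ) : Fin 4 → ℝ :=
  ![0, 2 * (u 0 * v 1 - u 1 * v 0) - (u 2 * v 3 - u 3 * v 2), u 0 * v 2 - u 2 * v 0,
    u 0 * v 3 - u 3 * v 0]

noncomputable def nb (u v : Fin 4 → ℝ) : Fin 4 → ℝ :=
  ![(3/2) * u 0 * v 0 + (1/2) * u 1 * v 1 + (-1/2) * u 2 * v 2 + (-1/2) * u 3 * v 3, (3/2) * u 0 * v 1 + (-1/2) * u 1 * v 0 + (-1/2) * u 2 * v 3 + (1/2) * u 3 * v 2, (3/2) * u 0 * v 2 + (-1/2) * u 1 * v 3 + (1/2) * u 2 * v 0 + (-1/2) * u 3 * v 1, (3/2) * u 0 * v 3 + (1/2) * u 1 * v 2 + (1/2) * u 2 * v 1 + (1/2) * u 3 * v 0]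

def cv (m : (Fin 4 → ℝ) → (Fin 4 → ℝ) → Fin 4 → ℝ) (x y : G) : G :=
  ![0, m (x 0) (y 0), m (x 0) (y 1) + m (x 1) (y 0), m (x 0) (y 2) + m (x 1) (y 1) + m (x 2) (y 0),
    m (x 0) (y 3) + m (x 1) (y 2) + m (x 2) (y 1) + m (x 3) (y 0)]

theorem ext' {x y : G}
    (h : x 0 0 = y 0 0 ∧ x 0 1 = y 0 1 ∧ x 0 2 = y 0 2 ∧ x 0 3 = y 0 3 ∧
      x 1 0 = y 1 0 ∧ x 1 1 = y 1 1 ∧ x 1 2 = y 1 2 ∧ x 1 3 = y 1 3 ∧
      x 2 0 = y 2 0 ∧ x 2 1 = y 2 1 ∧ x 2 2 = y 2 2 ∧ x 2 3 = y 2 3 ∧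
      x 3 0 = y 3 0 ∧ x 3 1 = y 3 1 ∧ x 3 2 = y 3 2 ∧ x 3 3 = y 3 3 ∧
      x 4 0 = y 4 0 ∧ x 4 1 = y 4 1 ∧ x 4 2 = y 4 2 ∧ x 4 3 = y 4 3) : x = y := by
  obtain ⟨h00, h01, h02, h03, h10, h11, h12, h13, h20, h21, h22, h23, h30, h31, h32, h33, h40, h41, h42, h43⟩ := h
  refine funext fun k => funext fun i => ?_
  fin_cases k <;> fin_cases i
  exacts [h00, h01, h02, h03, h10, h11, h12, h13, h20, h21, h22, h23, h30, h31, h32, h33, h40, h41, h42, h43]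

theorem add_ap (x y : G) (k i) : (x + y) k i = x k i + y k i := rfl
theorem sub_ap (x y : G) (k i) : (x - y) k i = x k i - y k i := rfl
theorem neg_ap (x : G) (k i) : (-x) k i = -x k i := rfl
theorem smul_ap (c : ℝ) (x : G) (k i) : (c • x) k i = c * x k i := rfl
theorem zero_ap (k i) : (0 : G) k i = 0 := rfl

theorem c0 (m) (x y : G) (i) : cv m x y 0 i = 0 := rfl
theorem c1 (m) (x y : G) (i) : cv m x y 1 i = m (x 0) (y 0) i := rfl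
theorem c2 (m) (x y : G) (i) : cv m x y 2 i = m (x 0) (y 1) i + m (x 1) (y 0) i := rfl
theorem c3 (m) (x y : G) (i) : cv m x y 3 i = m (x 0) (y 2) i + m (x 1) (y 1) i + m (x 2) (y 0) i := rfl
theorem c4 (m) (x y : G) (i) : cv m x y 4 i = m (x 0) (y 3) i + m (x 1) (y 2) i + m (x 2) (y 1) i + m (x 3) (y 0) i := rfl
theorem b0 (u v) : b u v 0 = 0 := rfl
theorem n0 (u v) : nb u v 0 = (3/2) * u 0 * v 0 + (1/2) * u 1 * v 1 + (-1/2) * u 2 * v 2 + (-1/2) * u 3 * v 3 := rfl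
theorem b1 (u v) : b u v 1 = 2 * (u 0 * v 1 - u 1 * v 0) - (u 2 * v 3 - u 3 * v 2) := rfl
theorem n1 (u v) : nb u v 1 = (3/2) * u 0 * v 1 + (-1/2) * u 1 * v 0 + (-1/2) * u 2 * v 3 + (1/2) * u 3 * v 2 := rfl
theorem b2 (u v) : b u v 2 = u 0 * v 2 - u 2 * v 0 := rfl
theorem n2 (u v) : nb u v 2 = (3/2) * u 0 * v 2 + (-1/2) * u 1 * v 3 + (1/2) * u 2 * v 0 + (-1/2) * u 3 * v 1 := rfl
theorem b3 (u v) : b u v 3 = u 0 * v 3 - u 3 * v 0 := rfl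
theorem n3 (u v) : nb u v 3 = (3/2) * u 0 * v 3 + (1/2) * u 1 * v 2 + (1/2) * u 2 * v 1 + (1/2) * u 3 * v 0 := rfl

theorem l1 (x y z : G) : cv b (x + y) z = cv b x z + cv b y z := by
    refine ext' ?_
    simp only [add_ap, sub_ap, neg_ap, smul_ap, zero_ap, c0, c1, c2, c3, c4, b0, b1, b2, b3]
    refine ⟨?_, ?_, ?_, ?_, ?_, ?_, ?_, ?_, ?_, ?_, ?_, ?_, ?_, ?_, ?_, ?_, ?_, ?_, ?_, ?_⟩ <;> first | trivial | ring
theorem l2 (x y z : G) : cv b x (y + z) = cv b x y + cv b x z := by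
    refine ext' ?_
    simp only [add_ap, sub_ap, neg_ap, smul_ap, zero_ap, c0, c1, c2, c3, c4, b0, b1, b2, b3]
    refine ⟨?_, ?_, ?_, ?_, ?_, ?_, ?_, ?_, ?_, ?_, ?_, ?_, ?_, ?_, ?_, ?_, ?_, ?_, ?_, ?_⟩ <;> first | trivial | ring
theorem l3 (x : G) : cv b x x = 0 := by
    refine ext' ?_
    simp only [add_ap, sub_ap, neg_ap, smul_ap, zero_ap, c0, c1, c2, c3, c4, b0, b1, b2, b3]
    refine ⟨?_, ?_, ?_, ?_, ?_, ?_, ?_, ?_, ?_, ?_, ?_, ?_, ?_, ?_, ?_, ?_, ?_, ?_, ?_, ?_⟩ <;> first | trivial | ring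
theorem l4 (x y z : G) : cv b x (cv b y z) = cv b (cv b x y) z + cv b y (cv b x z) := by
    refine ext' ?_
    simp only [add_ap, sub_ap, neg_ap, smul_ap, zero_ap, c0, c1, c2, c3, c4, b0, b1, b2, b3]
    refine ⟨?_, ?_, ?_, ?_, ?_, ?_, ?_, ?_, ?_, ?_, ?_, ?_, ?_, ?_, ?_, ?_, ?_, ?_, ?_, ?_⟩ <;> first | trivial | ring
theorem l5 (c : ℝ) (x y : G) : cv b x (c • y) = c • cv b x y := by
    refine ext' ?_
    simp only [add_ap, sub_ap, neg_ap, smul_ap, zero_ap, c0, c1, c2, c3, c4, b0, b1, b2, b3]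
    refine ⟨?_, ?_, ?_, ?_, ?_, ?_, ?_, ?_, ?_, ?_, ?_, ?_, ?_, ?_, ?_, ?_, ?_, ?_, ?_, ?_⟩ <;> first | trivial | ring

noncomputable instance : LieRing G where
  bracket := cv b
  add_lie := l1
  lie_add := l2
  lie_self := l3
  leibniz_lie := l4

theorem br (x y : G) : ⁅x, y⁆ = cv b x y := rfl

noncomputable instance : LieAlgebra ℝ G where
  lie_smul := l5

def j1 (x : G) : G := fun k => ![-x k 1, x k 0, -x k 3, x k 2]
def j2 (x : G) : G := fun k => ![-x k 2, x k 3, x k 0, -x k 1]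
def j3 (x : G) : G := fun k => ![-x k 3, -x k 2, x k 1, x k 0]

theorem j10 (x : G) (k) : j1 x k 0 = -x k 1 := rfl
theorem j11 (x : G) (k) : j1 x k 1 = x k 0 := rfl
theorem j12 (x : G) (k) : j1 x k 2 = -x k 3 := rfl
theorem j13 (x : G) (k) : j1 x k 3 = x k 2 := rfl
theorem j20 (x : G) (k) : j2 x k 0 = -x k 2 := rfl
theorem j21 (x : G) (k) : j2 x k 1 = x k 3 := rfl
theorem j22 (x : G) (k) : j2 x k 2 = x k 0 := rfl
theorem j23 (x : G) (k) : j2 x k 3 = -x k 1 := rfl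
theorem j30 (x : G) (k) : j3 x k 0 = -x k 3 := rfl
theorem j31 (x : G) (k) : j3 x k 1 = -x k 2 := rfl
theorem j32 (x : G) (k) : j3 x k 2 = x k 1 := rfl
theorem j33 (x : G) (k) : j3 x k 3 = x k 0 := rfl
theorem ja1 (x y : G) : j1 (x + y) = j1 x + j1 y := by
    refine ext' ?_
    simp only [add_ap, sub_ap, neg_ap, smul_ap, zero_ap, c0, c1, c2, c3, c4, b0, b1, b2, b3, j10, j11, j12, j13, j20, j21, j22, j23, j30, j31, j32, j33]
    refine ⟨?_, ?_, ?_, ?_, ?_, ?_, ?_, ?_, ?_, ?_, ?_, ?_, ?_, ?_, ?_, ?_, ?_, ?_, ?_, ?_⟩ <;> first | trivial | ring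
theorem js1 (c : ℝ) (x : G) : j1 (c • x) = c • j1 x := by
    refine ext' ?_
    simp only [add_ap, sub_ap, neg_ap, smul_ap, zero_ap, c0, c1, c2, c3, c4, b0, b1, b2, b3, j10, j11, j12, j13, j20, j21, j22, j23, j30, j31, j32, j33]
    refine ⟨?_, ?_, ?_, ?_, ?_, ?_, ?_, ?_, ?_, ?_, ?_, ?_, ?_, ?_, ?_, ?_, ?_, ?_, ?_, ?_⟩ <;> first | trivial | ring
def J1 : Module.End ℝ G := ⟨⟨j1, ja1⟩, js1⟩
theorem jj1 (x : G) : j1 (j1 x) = -x := by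
    refine ext' ?_
    simp only [add_ap, sub_ap, neg_ap, smul_ap, zero_ap, c0, c1, c2, c3, c4, b0, b1, b2, b3, j10, j11, j12, j13, j20, j21, j22, j23, j30, j31, j32, j33]
    refine ⟨?_, ?_, ?_, ?_, ?_, ?_, ?_, ?_, ?_, ?_, ?_, ?_, ?_, ?_, ?_, ?_, ?_, ?_, ?_, ?_⟩ <;> first | trivial | ring
theorem jn1 (X Y : G) : cv b X Y + j1 (cv b (j1 X) Y + cv b X (j1 Y)) - cv b (j1 X) (j1 Y) = 0 := by
    refine ext' ?_
    simp only [add_ap, sub_ap, neg_ap, smul_ap, zero_ap, c0, c1, c2, c3, c4, b0, b1, b2, b3, j10, j11, j12, j13, j20, j21, j22, j23, j30, j31, j32, j33]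
    refine ⟨?_, ?_, ?_, ?_, ?_, ?_, ?_, ?_, ?_, ?_, ?_, ?_, ?_, ?_, ?_, ?_, ?_, ?_, ?_, ?_⟩ <;> first | trivial | ring
theorem ja2 (x y : G) : j2 (x + y) = j2 x + j2 y := by
    refine ext' ?_
    simp only [add_ap, sub_ap, neg_ap, smul_ap, zero_ap, c0, c1, c2, c3, c4, b0, b1, b2, b3, j10, j11, j12, j13, j20, j21, j22, j23, j30, j31, j32, j33]
    refine ⟨?_, ?_, ?_, ?_, ?_, ?_, ?_, ?_, ?_, ?_, ?_, ?_, ?_, ?_, ?_, ?_, ?_, ?_, ?_, ?_⟩ <;> first | trivial | ring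
theorem js2 (c : ℝ) (x : G) : j2 (c • x) = c • j2 x := by
    refine ext' ?_
    simp only [add_ap, sub_ap, neg_ap, smul_ap, zero_ap, c0, c1, c2, c3, c4, b0, b1, b2, b3, j10, j11, j12, j13, j20, j21, j22, j23, j30, j31, j32, j33]
    refine ⟨?_, ?_, ?_, ?_, ?_, ?_, ?_, ?_, ?_, ?_, ?_, ?_, ?_, ?_, ?_, ?_, ?_, ?_, ?_, ?_⟩ <;> first | trivial | ring
def J2 : Module.End ℝ G := ⟨⟨j2, ja2⟩, js2⟩
theorem jj2 (x : G) : j2 (j2 x) = -x := by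
    refine ext' ?_
    simp only [add_ap, sub_ap, neg_ap, smul_ap, zero_ap, c0, c1, c2, c3, c4, b0, b1, b2, b3, j10, j11, j12, j13, j20, j21, j22, j23, j30, j31, j32, j33]
    refine ⟨?_, ?_, ?_, ?_, ?_, ?_, ?_, ?_, ?_, ?_, ?_, ?_, ?_, ?_, ?_, ?_, ?_, ?_, ?_, ?_⟩ <;> first | trivial | ring
theorem jn2 (X Y : G) : cv b X Y + j2 (cv b (j2 X) Y + cv b X (j2 Y)) - cv b (j2 X) (j2 Y) = 0 := by
    refine ext' ?_
    simp only [add_ap, sub_ap, neg_ap, smul_ap, zero_ap, c0, c1, c2, c3, c4, b0, b1, b2, b3, j10, j11, j12, j13, j20, j21, j22, j23, j30, j31, j32, j33]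
    refine ⟨?_, ?_, ?_, ?_, ?_, ?_, ?_, ?_, ?_, ?_, ?_, ?_, ?_, ?_, ?_, ?_, ?_, ?_, ?_, ?_⟩ <;> first | trivial | ring
theorem ja3 (x y : G) : j3 (x + y) = j3 x + j3 y := by
    refine ext' ?_
    simp only [add_ap, sub_ap, neg_ap, smul_ap, zero_ap, c0, c1, c2, c3, c4, b0, b1, b2, b3, j10, j11, j12, j13, j20, j21, j22, j23, j30, j31, j32, j33]
    refine ⟨?_, ?_, ?_, ?_, ?_, ?_, ?_, ?_, ?_, ?_, ?_, ?_, ?_, ?_, ?_, ?_, ?_, ?_, ?_, ?_⟩ <;> first | trivial | ring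
theorem js3 (c : ℝ) (x : G) : j3 (c • x) = c • j3 x := by
    refine ext' ?_
    simp only [add_ap, sub_ap, neg_ap, smul_ap, zero_ap, c0, c1, c2, c3, c4, b0, b1, b2, b3, j10, j11, j12, j13, j20, j21, j22, j23, j30, j31, j32, j33]
    refine ⟨?_, ?_, ?_, ?_, ?_, ?_, ?_, ?_, ?_, ?_, ?_, ?_, ?_, ?_, ?_, ?_, ?_, ?_, ?_, ?_⟩ <;> first | trivial | ring
def J3 : Module.End ℝ G := ⟨⟨j3, ja3⟩, js3⟩
theorem jj3 (x : G) : j3 (j3 x) = -x := by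
    refine ext' ?_
    simp only [add_ap, sub_ap, neg_ap, smul_ap, zero_ap, c0, c1, c2, c3, c4, b0, b1, b2, b3, j10, j11, j12, j13, j20, j21, j22, j23, j30, j31, j32, j33]
    refine ⟨?_, ?_, ?_, ?_, ?_, ?_, ?_, ?_, ?_, ?_, ?_, ?_, ?_, ?_, ?_, ?_, ?_, ?_, ?_, ?_⟩ <;> first | trivial | ring
theorem jn3 (X Y : G) : cv b X Y + j3 (cv b (j3 X) Y + cv b X (j3 Y)) - cv b (j3 X) (j3 Y) = 0 := by
    refine ext' ?_
    simp only [add_ap, sub_ap, neg_ap, smul_ap, zero_ap, c0, c1, c2, c3, c4, b0, b1, b2, b3, j10, j11, j12, j13, j20, j21, j22, j23, j30, j31, j32, j33]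
    refine ⟨?_, ?_, ?_, ?_, ?_, ?_, ?_, ?_, ?_, ?_, ?_, ?_, ?_, ?_, ?_, ?_, ?_, ?_, ?_, ?_⟩ <;> first | trivial | ring
theorem p12 (x : G) : j1 (j2 x) = j3 x := by
    refine ext' ?_
    simp only [add_ap, sub_ap, neg_ap, smul_ap, zero_ap, c0, c1, c2, c3, c4, b0, b1, b2, b3, j10, j11, j12, j13, j20, j21, j22, j23, j30, j31, j32, j33]
    refine ⟨?_, ?_, ?_, ?_, ?_, ?_, ?_, ?_, ?_, ?_, ?_, ?_, ?_, ?_, ?_, ?_, ?_, ?_, ?_, ?_⟩ <;> first | trivial | ring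
theorem p21 (x : G) : j2 (j1 x) = -j3 x := by
    refine ext' ?_
    simp only [add_ap, sub_ap, neg_ap, smul_ap, zero_ap, c0, c1, c2, c3, c4, b0, b1, b2, b3, j10, j11, j12, j13, j20, j21, j22, j23, j30, j31, j32, j33]
    refine ⟨?_, ?_, ?_, ?_, ?_, ?_, ?_, ?_, ?_, ?_, ?_, ?_, ?_, ?_, ?_, ?_, ?_, ?_, ?_, ?_⟩ <;> first | trivial | ring

theorem hyp : IsHyper J1 J2 J3 :=
  ⟨⟨LinearMap.ext jj1, jn1⟩, ⟨LinearMap.ext jj2, jn2⟩, ⟨LinearMap.ext jj3, jn3⟩,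
    LinearMap.ext p12, LinearMap.ext p21⟩

theorem ob' (X Y : G) : (1 / 2 : ℝ) • (cv b X Y + j1 (cv b (j1 X) Y)
    - j2 (cv b X (j2 Y)) + j3 (cv b (j1 X) (j2 Y))) = cv nb X Y := by
    refine ext' ?_
    simp only [add_ap, sub_ap, neg_ap, smul_ap, zero_ap, c0, c1, c2, c3, c4, b0, b1, b2, b3, j10, j11, j12, j13, j20, j21, j22, j23, j30, j31, j32, j33, n0, n1, n2, n3]
    refine ⟨?_, ?_, ?_, ?_, ?_, ?_, ?_, ?_, ?_, ?_, ?_, ?_, ?_, ?_, ?_, ?_, ?_, ?_, ?_, ?_⟩ <;> first | trivial | ring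

theorem ob (X Y : G) : obata J1 J2 J3 X Y = cv nb X Y := ob' X Y

theorem bz (u v : Fin 4 → ℝ) (h : ∀ i, v i = 0) (i) : b u v i = 0 := by
  fin_cases i
  · rfl
  · exact (b1 u v).trans (by simp [h])
  · exact (b2 u v).trans (by simp [h])
  · exact (b3 u v).trans (by simp [h])

theorem step (n : ℕ) (x y : G) (h : ∀ k : Fin 5, k.val < n → ∀ i, y k i = 0) :
    ∀ k : Fin 5, k.val < n + 1 → ∀ i, cv b x y k i = 0 := by
  intro k hk i
  fin_cases k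
  · rfl
  · have : 0 < n := by simpa using hk
    exact (c1 b x y i).trans (bz _ _ (h 0 this) i)
  · have : 1 < n := Nat.lt_of_succ_lt_succ hk
    exact (c2 b x y i).trans (by rw [bz _ _ (h 0 (lt_trans (by decide) this)), bz _ _ (h 1 this)]; simp)
  · have : 2 < n := Nat.lt_of_succ_lt_succ hk
    exact (c3 b x y i).trans (by
      rw [bz _ _ (h 0 (lt_trans (by decide) this)), bz _ _ (h 1 (lt_trans (by decide) this)),
        bz _ _ (h 2 this)]; simp)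
  · have : 3 < n := Nat.lt_of_succ_lt_succ hk
    exact (c4 b x y i).trans (by
      rw [bz _ _ (h 0 (lt_trans (by decide) this)), bz _ _ (h 1 (lt_trans (by decide) this)),
        bz _ _ (h 2 (lt_trans (by decide) this)), bz _ _ (h 3 this)]; simp)

instance : Module.Finite ℝ G := inferInstanceAs (Module.Finite ℝ (Fin 5 → Fin 4 → ℝ))

theorem nil : LieRing.IsNilpotent G := by
  refine (LieAlgebra.isNilpotent_iff_forall (R := ℝ)).2 fun x => ⟨5, LinearMap.ext fun y => ?_⟩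
  have : ∀ n : ℕ, ∀ k : Fin 5, k.val < n → ∀ i, (LieAlgebra.ad ℝ G x ^ n) y k i = 0 := fun n => by
    induction n with
    | zero => exact fun k hk => absurd hk (Nat.not_lt_zero _)
    | succ n ih => rw [pow_succ']; exact step n x _ ih
  exact funext fun k => funext fun i => this 5 k k.2 i

/-- The vector with coordinates `(p, q, r, s)` in layer `l`. -/
def e (l : ℕ) (p q r s : ℝ) : G := fun k => if k.val = l then ![p, q, r, s] else 0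

theorem e000 (p q r s) : e 0 p q r s 0 0 = p := rfl
theorem e001 (p q r s) : e 0 p q r s 0 1 = q := rfl
theorem e002 (p q r s) : e 0 p q r s 0 2 = r := rfl
theorem e003 (p q r s) : e 0 p q r s 0 3 = s := rfl
theorem e010 (p q r s) : e 0 p q r s 1 0 = 0 := rfl
theorem e011 (p q r s) : e 0 p q r s 1 1 = 0 := rfl
theorem e012 (p q r s) : e 0 p q r s 1 2 = 0 := rfl
theorem e013 (p q r s) : e 0 p q r s 1 3 = 0 := rfl
theorem e020 (p q r s) : e 0 p q r s 2 0 = 0 := rfl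
theorem e021 (p q r s) : e 0 p q r s 2 1 = 0 := rfl
theorem e022 (p q r s) : e 0 p q r s 2 2 = 0 := rfl
theorem e023 (p q r s) : e 0 p q r s 2 3 = 0 := rfl
theorem e030 (p q r s) : e 0 p q r s 3 0 = 0 := rfl
theorem e031 (p q r s) : e 0 p q r s 3 1 = 0 := rfl
theorem e032 (p q r s) : e 0 p q r s 3 2 = 0 := rfl
theorem e033 (p q r s) : e 0 p q r s 3 3 = 0 := rfl
theorem e040 (p q r s) : e 0 p q r s 4 0 = 0 := rfl
theorem e041 (p q r s) : e 0 p q r s 4 1 = 0 := rfl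
theorem e042 (p q r s) : e 0 p q r s 4 2 = 0 := rfl
theorem e043 (p q r s) : e 0 p q r s 4 3 = 0 := rfl
theorem e200 (p q r s) : e 2 p q r s 0 0 = 0 := rfl
theorem e201 (p q r s) : e 2 p q r s 0 1 = 0 := rfl
theorem e202 (p q r s) : e 2 p q r s 0 2 = 0 := rfl
theorem e203 (p q r s) : e 2 p q r s 0 3 = 0 := rfl
theorem e210 (p q r s) : e 2 p q r s 1 0 = 0 := rfl
theorem e211 (p q r s) : e 2 p q r s 1 1 = 0 := rfl
theorem e212 (p q r s) : e 2 p q r s 1 2 = 0 := rfl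
theorem e213 (p q r s) : e 2 p q r s 1 3 = 0 := rfl
theorem e220 (p q r s) : e 2 p q r s 2 0 = p := rfl
theorem e221 (p q r s) : e 2 p q r s 2 1 = q := rfl
theorem e222 (p q r s) : e 2 p q r s 2 2 = r := rfl
theorem e223 (p q r s) : e 2 p q r s 2 3 = s := rfl
theorem e230 (p q r s) : e 2 p q r s 3 0 = 0 := rfl
theorem e231 (p q r s) : e 2 p q r s 3 1 = 0 := rfl
theorem e232 (p q r s) : e 2 p q r s 3 2 = 0 := rfl
theorem e233 (p q r s) : e 2 p q r s 3 3 = 0 := rfl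
theorem e240 (p q r s) : e 2 p q r s 4 0 = 0 := rfl
theorem e241 (p q r s) : e 2 p q r s 4 1 = 0 := rfl
theorem e242 (p q r s) : e 2 p q r s 4 2 = 0 := rfl
theorem e243 (p q r s) : e 2 p q r s 4 3 = 0 := rfl

theorem cu (X Y Z : G) : curv J1 J2 J3 X Y Z
    = cv nb X (cv nb Y Z) - cv nb Y (cv nb X Z) - cv nb (cv b X Y) Z := by
  simp only [curv, LinearMap.sub_apply, Module.End.mul_apply, ob, br]

theorem r1 : curv J1 J2 J3 (e 0 0 0 1 0) (e 0 1 0 0 0) (e 0 1 0 0 0) = e 2 0 0 (1 / 2) 0 := by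
    rw [cu]
    refine ext' ?_
    simp only [add_ap, sub_ap, neg_ap, smul_ap, zero_ap, c0, c1, c2, c3, c4, b0, b1, b2, b3, n0, n1, n2, n3, e000, e001, e002, e003, e010, e011, e012, e013, e020, e021, e022, e023, e030, e031, e032, e033, e040, e041, e042, e043, e200, e201, e202, e203, e210, e211, e212, e213, e220, e221, e222, e223, e230, e231, e232, e233, e240, e241, e242, e243, mul_zero, zero_mul, add_zero, zero_add, sub_zero]
    norm_num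

theorem r2 : curv J1 J2 J3 (e 0 0 1 0 0) (e 0 1 0 0 0) (e 0 1 0 0 0) = e 2 0 (-1) 0 0 := by
    rw [cu]
    refine ext' ?_
    simp only [add_ap, sub_ap, neg_ap, smul_ap, zero_ap, c0, c1, c2, c3, c4, b0, b1, b2, b3, n0, n1, n2, n3, e000, e001, e002, e003, e010, e011, e012, e013, e020, e021, e022, e023, e030, e031, e032, e033, e040, e041, e042, e043, e200, e201, e202, e203, e210, e211, e212, e213, e220, e221, e222, e223, e230, e231, e232, e233, e240, e241, e242, e243, mul_zero, zero_mul, add_zero, zero_add, sub_zero]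
    norm_num

theorem result : ∃ (g : Type) (_ : LieRing g) (_ : LieAlgebra ℝ g),
    FiniteDimensional ℝ g ∧ LieRing.IsNilpotent g ∧ ∃ J₁ J₂ J₃ : Module.End ℝ g,
      IsHyper J₁ J₂ J₃ ∧
      (∃ X Y Z W : g, curv J₁ J₂ J₃ X Y * curv J₁ J₂ J₃ Z W ≠
        curv J₁ J₂ J₃ Z W * curv J₁ J₂ J₃ X Y) ∧
      ∃ A ∈ hol J₁ J₂ J₃, ∃ B ∈ hol J₁ J₂ J₃, A * B ≠ B * A := by
  have key : curv J1 J2 J3 (e 0 0 1 0 0) (e 0 1 0 0 0) * curv J1 J2 J3 (e 0 0 0 1 0) (e 0 1 0 0 0) ≠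
      curv J1 J2 J3 (e 0 0 0 1 0) (e 0 1 0 0 0) * curv J1 J2 J3 (e 0 0 1 0 0) (e 0 1 0 0 0) :=
    fun h => by
    have h1 := congrArg (fun A : Module.End ℝ G => A (e 0 1 0 0 0) 4 3) h
    simp only [Module.End.mul_apply, r1, r2] at h1
    rw [cu, cu] at h1
    simp only [add_ap, sub_ap, neg_ap, smul_ap, zero_ap, c0, c1, c2, c3, c4, b0, b1, b2, b3, n0, n1, n2, n3, e000, e001, e002, e003, e010, e011, e012, e013, e020, e021, e022, e023, e030, e031, e032, e033, e040, e041, e042, e043, e200, e201, e202, e203, e210, e211, e212, e213, e220, e221, e222, e223, e230, e231, e232, e233, e240, e241, e242, e243, mul_zero, zero_mul, add_zero, zero_add, sub_zero] at h1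
    norm_num at h1
  exact ⟨G, inferInstance, inferInstance, inferInstanceAs (Module.Finite ℝ G), nil, J1, J2, J3, hyp,
    ⟨_, _, _, _, key⟩, _, Submodule.mem_sInf.2 fun S hS => hS.1 _ _, _,
    Submodule.mem_sInf.2 fun S hS => hS.1 _ _, key⟩

end Pool.Agent.Results.MP_590da2_gt.NonAbelian
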